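import Mathlib

/-!
# `A B⁻¹` need not be piecewise syndetic in an amenable group

The group is the group of finitary permutations of the natural numbers. For a permutation `a` we
look at the sequence `a⁻¹ 0, a⁻¹ 1, ...`; multiplication on the left by permutations of
`{0, ..., n - 1}` rearranges the first `n` entries.
-/

set_option autoImplicit false

namespace Pool.Agent.Results.MP_b01501_co.NotSyndetic

open Finset

/-- The finite set `K` is nonempty and `(H, ε)`-invariant: `|h K △ K| < ε |K|` for `h ∈ H`. -/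
def Invariant {G : Type} [Group G] (H : Finset G) (ε : ℝ) (K : Finset G) : Prop :=
  K.Nonempty ∧ ∀ h ∈ H,
    ((symmDiff ((fun k => h * k) '' (K : Set G)) (K : Set G)).ncard : ℝ) < ε * K.card

/-- The group `G` is amenable (Følner condition). -/
def IsAmenable (G : Type) [Group G] : Prop :=
  ∀ (H : Finset G) (ε : ℝ), 0 < ε → ∃ K, Invariant H ε K

/-- The (upper) Banach density: the supremum of all `α` such that for all finite `H` and `ε > 0`
some `(H, ε)`-invariant `K` satisfies `|A ∩ K| ≥ α |K|`. -/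
noncomputable def density {G : Type} [Group G] (A : Set G) : ℝ :=
  sSup {α : ℝ | ∀ (H : Finset G) (ε : ℝ), 0 < ε → ∃ K : Finset G, Invariant H ε K ∧
    α * K.card ≤ ((A ∩ (K : Set G)).ncard : ℝ)}

/-- `A` is thick: for every finite `H` some translate `H x` lies in `A`. -/
def Thick {G : Type} [Group G] (A : Set G) : Prop :=
  ∀ H : Finset G, ∃ x : G, ∀ h ∈ H, h * x ∈ A

/-- The finitary permutations of the natural numbers. -/
def FG : Subgroup (Equiv.Perm ℕ) where
  carrier := {g | ∃ n : ℕ, ∀ i, n ≤ i → g i = i}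
  mul_mem' := by
    rintro g h ⟨n, hn⟩ ⟨m, hm⟩
    refine ⟨max n m, fun i hi => ?_⟩
    rw [Equiv.Perm.mul_apply, hm i ((le_max_right _ _).trans hi), hn i ((le_max_left _ _).trans hi)]
  one_mem' := ⟨0, fun _ _ => rfl⟩
  inv_mem' := by
    rintro g ⟨n, hn⟩
    refine ⟨n, fun i hi => ?_⟩
    rw [Equiv.Perm.inv_eq_iff_eq]
    exact (hn i hi).symm

/-- permutations of `{0, ..., n - 1}` -/
def Gn (n : ℕ) : Set FG := {g | ∀ i, n ≤ i → g.1 i = i}

theorem Gn_mono {n m : ℕ} (h : n ≤ m) : Gn n ⊆ Gn m := fun _ hg i hi => hg i (h.trans hi)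

theorem mul_mem_Gn {n : ℕ} {g h : FG} (hg : g ∈ Gn n) (hh : h ∈ Gn n) : g * h ∈ Gn n := by
  intro i hi
  show g.1 (h.1 i) = i
  rw [hh i hi, hg i hi]

theorem inv_mem_Gn {n : ℕ} {g : FG} (hg : g ∈ Gn n) : g⁻¹ ∈ Gn n := by
  intro i hi
  show (g.1)⁻¹ i = i
  rw [Equiv.Perm.inv_eq_iff_eq]
  exact (hg i hi).symm

theorem Gn_lt {n : ℕ} {g : FG} (hg : g ∈ Gn n) {i : ℕ} (hi : i < n) : g.1 i < n := by
  by_contra h
  rw [not_lt] at h
  have h1 := hg _ h
  have h2 : g.1 i = i := g.1.injective h1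
  omega

theorem finite_Gn (n : ℕ) : (Gn n).Finite := by
  have hinj : Set.InjOn (fun (g : FG) (i : Fin n) => g.1 i.1) (Gn n) := by
    intro g hg h hh hgh
    apply Subtype.ext
    apply Equiv.ext
    intro i
    by_cases hi : i < n
    · exact congrFun hgh ⟨i, hi⟩
    · rw [hg i (by omega), hh i (by omega)]
  refine Set.Finite.of_finite_image ?_ hinj
  refine Set.Finite.subset (Set.Finite.pi' (fun _ : Fin n => Set.finite_Iio n)) ?_
  rintro _ ⟨g, hg, rfl⟩ i
  exact Gn_lt hg i.2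

/-- the finite set of permutations of `{0, ..., n - 1}` -/
noncomputable def W (n : ℕ) : Finset FG := (finite_Gn n).toFinset

theorem mem_W {n : ℕ} {g : FG} : g ∈ W n ↔ g ∈ Gn n := by
  unfold W
  rw [Set.Finite.mem_toFinset]

theorem exists_level (H : Finset FG) : ∃ n, ∀ h ∈ H, h ∈ Gn n := by
  choose f hf using fun g : FG => g.2
  refine ⟨H.sup f, fun h hh i hi => hf h i (le_trans (Finset.le_sup hh) hi)⟩

open Classical in
/-- the coset `G_n x` -/
noncomputable def C (n : ℕ) (x : FG) : Finset FG := (W n).image fun g => g * x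

open Classical in
theorem mem_C {n : ℕ} {x y : FG} : y ∈ C n x ↔ y * x⁻¹ ∈ Gn n := by
  unfold C
  rw [mem_image]
  constructor
  · rintro ⟨g, hg, rfl⟩
    rw [mul_inv_cancel_right]
    exact mem_W.1 hg
  · intro h
    exact ⟨y * x⁻¹, mem_W.2 h, inv_mul_cancel_right y x⟩

theorem C_invariant {n : ℕ} (x : FG) (H : Finset FG) (hH : ∀ h ∈ H, h ∈ Gn n) {ε : ℝ} (hε : 0 < ε) :
    Invariant H ε (C n x) := by
  have hne : (C n x).Nonempty := ⟨x, mem_C.2 (by rw [mul_inv_cancel]; exact fun i _ => rfl)⟩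
  refine ⟨hne, fun h hh => ?_⟩
  have h1 : ((fun k => h * k) '' (C n x : Set FG)) = C n x := by
    ext y
    constructor
    · rintro ⟨k, hk, rfl⟩
      rw [mem_coe, mem_C, mul_assoc]
      exact mul_mem_Gn (hH h hh) (mem_C.1 hk)
    · intro hy
      refine ⟨h⁻¹ * y, ?_, mul_inv_cancel_left h y⟩
      rw [mem_coe, mem_C, mul_assoc]
      exact mul_mem_Gn (inv_mem_Gn (hH h hh)) (mem_C.1 hy)
  rw [h1, symmDiff_self]
  have : (0 : ℝ) < (C n x).card := by exact_mod_cast card_pos.2 hne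
  simp only [Set.bot_eq_empty, Set.ncard_empty, Nat.cast_zero]
  positivity

theorem ncard_inter_le (A : Set FG) (K : Finset FG) : ((A ∩ (K : Set FG)).ncard : ℝ) ≤ K.card := by
  rw [← Set.ncard_coe_finset K]
  exact_mod_cast Set.ncard_le_ncard Set.inter_subset_right K.finite_toSet

theorem density_bdd (A : Set FG) : BddAbove {α : ℝ | ∀ (H : Finset FG) (ε : ℝ), 0 < ε →
    ∃ K : Finset FG, Invariant H ε K ∧ α * K.card ≤ ((A ∩ (K : Set FG)).ncard : ℝ)} := by
  refine ⟨1, fun α hα => ?_⟩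
  obtain ⟨K, hK, h⟩ := hα ∅ 1 one_pos
  have h1 : (0 : ℝ) < K.card := by exact_mod_cast card_pos.2 hK.1
  have h2 := ncard_inter_le A K
  have h3 : α * K.card ≤ 1 * K.card := by linarith
  exact le_of_mul_le_mul_right h3 h1

theorem mem_density {A : Set FG} {α : ℝ} (h : ∀ n₀ : ℕ, ∃ n, n₀ ≤ n ∧ ∃ x : FG,
    α * (C n x).card ≤ ((A ∩ (C n x : Set FG)).ncard : ℝ)) :
    α ∈ {α : ℝ | ∀ (H : Finset FG) (ε : ℝ), 0 < ε →
    ∃ K : Finset FG, Invariant H ε K ∧ α * K.card ≤ ((A ∩ (K : Set FG)).ncard : ℝ)} := by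
  intro H ε hε
  obtain ⟨n₀, hn₀⟩ := exists_level H
  obtain ⟨n, hn, x, hx⟩ := h n₀
  exact ⟨C n x, C_invariant x H (fun h hh => Gn_mono hn (hn₀ h hh)) hε, hx⟩

/-! ### Block exchanges -/

/-- exchange of the blocks `[0, n)` and `[N, N + n)` -/
def blkFun (N n i : ℕ) : ℕ := if i < n then i + N else if N ≤ i ∧ i < N + n then i - N else i

theorem blk_inv {N n : ℕ} (h : n ≤ N) (i : ℕ) : blkFun N n (blkFun N n i) = i := by
  unfold blkFun
  by_cases h1 : i < n
  · rw [if_pos h1, if_neg (by omega), if_pos (by omega)]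
    omega
  · rw [if_neg h1]
    by_cases h2 : N ≤ i ∧ i < N + n
    · rw [if_pos h2, if_pos (by omega)]
      omega
    · rw [if_neg h2, if_neg h1, if_neg h2]

/-- exchange of the blocks `[0, n)` and `[N, N + n)` -/
def blk (N n : ℕ) (h : n ≤ N) : FG :=
  ⟨⟨blkFun N n, blkFun N n, blk_inv h, blk_inv h⟩, N + n, fun i hi => by
    show blkFun N n i = i
    unfold blkFun
    rw [if_neg (by omega), if_neg (by omega)]⟩

theorem blk_apply {N n : ℕ} (h : n ≤ N) (i : ℕ) : (blk N n h).1 i = blkFun N n i := rfl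

theorem blk_inv_apply {N n : ℕ} (h : n ≤ N) (i : ℕ) : ((blk N n h)⁻¹).1 i = blkFun N n i := rfl

/-! ### The sets -/

/-- the scale `r j = (j + 2)!` -/
def r (j : ℕ) : ℕ := (j + 2).factorial

theorem r_mono {i j : ℕ} (h : i ≤ j) : r i ≤ r j := Nat.factorial_le (by omega)

theorem r_succ (j : ℕ) : r (j + 1) = (j + 3) * r j := Nat.factorial_succ (j + 2)

theorem r_gt (j : ℕ) : j + 1 < r j := by
  have : j + 2 ≤ (j + 2).factorial := Nat.self_le_factorial _
  unfold r
  omega

theorem two_le_r (j : ℕ) : 2 ≤ r j := by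
  have := r_gt j
  have h := r_mono (Nat.zero_le j)
  have h0 : r 0 = 2 := rfl
  omega

theorem two_pow_le_r (j : ℕ) : 2 ^ (j + 1) ≤ r j := by
  induction j with
  | zero => decide
  | succ j ih =>
    rw [r_succ, pow_succ]
    nlinarith

/-- the set `A` -/
def A : Set FG := {a | ∃ t : ℕ, (∀ i, i < r t → 4 ^ r t ≤ (a⁻¹).1 i ∧ (a⁻¹).1 i < 4 ^ r t + r t) ∧
  ∀ j, 1 ≤ j → j ≤ t → ∃ i, i < r j ∧ (a⁻¹).1 j < (a⁻¹).1 i}

/-- the set `B` -/
def B : Set FG := {b | ∃ l : ℕ, ∃ g ∈ Gn l, b = g * blk (2 * 4 ^ l) (2 * 4 ^ l) le_rfl}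

/-- an upper bound for `A * B⁻¹` -/
def D : Set FG := {h | ∃ t : ℕ, (∀ i i', i < r t → i' < r t → (h⁻¹).1 i < (h⁻¹).1 i' + r t) ∧
  ∀ j, 1 ≤ j → j ≤ t → ∃ i, i < r j ∧ (h⁻¹).1 j < (h⁻¹).1 i}

theorem AB_subset {a b : FG} (ha : a ∈ A) (hb : b ∈ B) : a * b⁻¹ ∈ D := by
  obtain ⟨t, ht1, ht2⟩ := ha
  obtain ⟨l, g, hg, rfl⟩ := hb
  -- `b` is a translation on the block
  have htr : ∃ c : ℕ, ∀ v, 4 ^ r t ≤ v → v < 4 ^ r t + r t →
      (g * blk (2 * 4 ^ l) (2 * 4 ^ l) le_rfl).1 v = v + c := by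
    have hrt : r t < 4 ^ r t := Nat.lt_pow_self (by norm_num)
    have hl : l < 4 ^ l := Nat.lt_pow_self (by norm_num)
    by_cases hc : r t ≤ l
    · refine ⟨2 * 4 ^ l, fun v hv1 hv2 => ?_⟩
      have h1 : 4 ^ r t ≤ 4 ^ l := Nat.pow_le_pow_right (by norm_num) hc
      show g.1 ((blk (2 * 4 ^ l) (2 * 4 ^ l) le_rfl).1 v) = _
      rw [blk_apply]
      unfold blkFun
      rw [if_pos (by omega)]
      exact hg _ (by omega)
    · refine ⟨0, fun v hv1 hv2 => ?_⟩
      have h1 : 4 ^ (l + 1) ≤ 4 ^ r t := Nat.pow_le_pow_right (by norm_num) (by omega)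
      rw [pow_succ] at h1
      show g.1 ((blk (2 * 4 ^ l) (2 * 4 ^ l) le_rfl).1 v) = _
      rw [blk_apply]
      unfold blkFun
      rw [if_neg (by omega), if_neg (by omega)]
      exact hg _ (by omega)
  obtain ⟨c, hc⟩ := htr
  set b := g * blk (2 * 4 ^ l) (2 * 4 ^ l) le_rfl with hb
  have hval : ∀ i, i < r t → ((a * b⁻¹)⁻¹).1 i = (a⁻¹).1 i + c := by
    intro i hi
    rw [mul_inv_rev, inv_inv]
    show b.1 ((a⁻¹).1 i) = _
    exact hc _ (ht1 i hi).1 (ht1 i hi).2
  refine ⟨t, ?_, ?_⟩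
  · intro i i' hi hi'
    rw [hval i hi, hval i' hi']
    have h1 := ht1 i hi
    have h2 := ht1 i' hi'
    omega
  · intro j hj1 hj2
    obtain ⟨i, hi, hlt⟩ := ht2 j hj1 hj2
    have h1 := r_mono hj2
    have h2 := r_gt j
    refine ⟨i, hi, ?_⟩
    rw [hval i (by omega), hval j (by omega)]
    omega

/-! ### Densities -/

/-- the inverse has its maximum over the first `r j` places at `j` -/
def MaxAt (j : ℕ) (g : FG) : Prop := ∀ i, i < r j → (g⁻¹).1 i ≤ (g⁻¹).1 j

/-- the maximum is not at `j`, for `1 ≤ j ≤ t` -/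
def Good (t : ℕ) (g : FG) : Prop :=
  ∀ j, 1 ≤ j → j ≤ t → ∃ i, i < r j ∧ (g⁻¹).1 j < (g⁻¹).1 i

open Classical in
/-- the permutations whose inverse has its maximum over the first `r j` places at `j` -/
theorem bad_count (n j : ℕ) (hj : r j ≤ n) :
    ((W n).filter fun g => MaxAt j g).card * r j ≤ (W n).card := by
  have hrj := r_gt j
  have h1 : (((W n).filter fun g => MaxAt j g) ×ˢ range (r j)).card ≤
      (W n).card := by
    let sw : ℕ → FG := fun i => ⟨Equiv.swap i j, max i j + 1, fun k hk => by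
      apply Equiv.swap_apply_of_ne_of_ne <;> omega⟩
    have hsw : ∀ i, i < r j → sw i ∈ Gn n := by
      intro i hi k hk
      exact Equiv.swap_apply_of_ne_of_ne (by omega) (by omega)
    have hval : ∀ (g : FG) i k, ((sw i * g)⁻¹).1 k = (g⁻¹).1 (Equiv.swap i j k) := by
      intro g i k
      rw [mul_inv_rev]
      show (g⁻¹).1 (((sw i)⁻¹).1 k) = _
      congr 1
    apply card_le_card_of_injOn (fun q : FG × ℕ => sw q.2 * q.1)
    · rintro ⟨g, i⟩ hq
      rw [mem_coe, mem_product, mem_filter, mem_range] at hq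
      rw [mem_coe, mem_W]
      exact mul_mem_Gn (hsw i hq.2) (mem_W.1 hq.1.1)
    · rintro ⟨g, i⟩ hq ⟨g', i'⟩ hq' h
      rw [mem_coe, mem_product, mem_filter, mem_range] at hq hq'
      simp only at hq hq' h
      -- the maximum of `h⁻¹` is at `i`
      have hmax : ∀ (g : FG) i, i < r j → (∀ k, k < r j → (g⁻¹).1 k ≤ (g⁻¹).1 j) →
          ∀ k, k < r j → ((sw i * g)⁻¹).1 k ≤ ((sw i * g)⁻¹).1 i := by
        intro g i hi hg k hk
        rw [hval, hval, Equiv.swap_apply_left]
        apply hg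
        by_cases hki : k = i
        · rw [hki, Equiv.swap_apply_left]; omega
        · by_cases hkj : k = j
          · rw [hkj, Equiv.swap_apply_right]; exact hi
          · rw [Equiv.swap_apply_of_ne_of_ne hki hkj]; exact hk
      have h2 := hmax g i hq.2 hq.1.2 i' hq'.2
      have h3 := hmax g' i' hq'.2 hq'.1.2 i hq.2
      rw [← h] at h3
      have h4 : ((sw i * g)⁻¹).1 i' = ((sw i * g)⁻¹).1 i := le_antisymm h2 h3
      have h5 : i' = i := ((sw i * g)⁻¹).1.injective h4
      subst h5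
      have h6 : g = g' := mul_left_cancel h
      rw [h6]
  rwa [card_product, card_range] at h1

open Classical in
theorem good_count (t : ℕ) : ((W (r t)).card : ℝ) ≤
    2 * (((W (r t)).filter fun g => Good t g).card : ℝ) := by
  let Bad : ℕ → Finset FG := fun j => (W (r t)).filter fun g => MaxAt j g
  have hBad : ∀ j, j ≤ t → ((Bad j).card : ℝ) ≤ (W (r t)).card * (1 / 2) ^ (j + 1) := by
    intro j hj
    have h1 := bad_count (r t) j (r_mono hj)
    have h2 : ((Bad j).card : ℝ) * r j ≤ (W (r t)).card := by exact_mod_cast h1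
    have h3 : ((2 : ℝ) ^ (j + 1)) ≤ r j := by exact_mod_cast two_pow_le_r j
    have h4 : ((Bad j).card : ℝ) * 2 ^ (j + 1) ≤ (W (r t)).card :=
      (mul_le_mul_of_nonneg_left h3 (Nat.cast_nonneg _)).trans h2
    rw [one_div, inv_pow, ← div_eq_mul_inv, le_div_iff₀ (by positivity)]
    exact h4
  have hsub : W (r t) ⊆ ((W (r t)).filter fun g => Good t g) ∪ (Icc 1 t).biUnion Bad := by
    intro g hg
    rw [mem_union, mem_filter, mem_biUnion]
    by_cases hc : Good t g
    · exact Or.inl ⟨hg, hc⟩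
    · unfold Good at hc
      push Not at hc
      obtain ⟨j, hj1, hj2, hj⟩ := hc
      exact Or.inr ⟨j, mem_Icc.2 ⟨hj1, hj2⟩, mem_filter.2 ⟨hg, hj⟩⟩
  have h1 := (card_le_card hsub).trans (card_union_le _ _)
  have h2 : (((Icc 1 t).biUnion Bad).card : ℝ) ≤ (W (r t)).card * (1 / 2) := by
    calc (((Icc 1 t).biUnion Bad).card : ℝ) ≤ ∑ j ∈ Icc 1 t, ((Bad j).card : ℝ) := by
          exact_mod_cast card_biUnion_le
      _ ≤ ∑ j ∈ Icc 1 t, ((W (r t)).card : ℝ) * (1 / 2) ^ (j + 1) := by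
          apply sum_le_sum
          intro j hj
          exact hBad j (mem_Icc.1 hj).2
      _ = (W (r t)).card * ∑ j ∈ Icc 1 t, ((1 : ℝ) / 2) ^ (j + 1) := by rw [mul_sum]
      _ ≤ (W (r t)).card * (1 / 2) := by
          apply mul_le_mul_of_nonneg_left _ (Nat.cast_nonneg _)
          have h3 : ∀ t : ℕ, ∑ j ∈ Icc 1 t, ((1 : ℝ) / 2) ^ (j + 1) ≤ 1 / 2 - (1 / 2) ^ (t + 1) := by
            intro t
            induction t with
            | zero => simp
            | succ t ih =>
              rw [sum_Icc_succ_top (by omega)]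
              have : ((1 : ℝ) / 2) ^ (t + 1 + 1) = (1 / 2) ^ (t + 1) * (1 / 2) := pow_succ _ _
              linarith
          have h4 := h3 t
          have h5 : (0 : ℝ) ≤ (1 / 2) ^ (t + 1) := by positivity
          linarith
  have h3 : ((W (r t)).card : ℝ) ≤ (((W (r t)).filter fun g => Good t g).card : ℝ) +
      (((Icc 1 t).biUnion Bad).card : ℝ) := by exact_mod_cast h1
  linarith

theorem card_C (n : ℕ) (x : FG) : (C n x).card = (W n).card := by
  classical
  unfold C
  convert card_image_of_injective (W n) (mul_left_injective x)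

theorem le_pow_r (t : ℕ) : r t ≤ 4 ^ r t := (Nat.lt_pow_self (by norm_num)).le

open Classical in
theorem density_A : 1 / 2 ≤ density A := by
  apply le_csSup (density_bdd A)
  apply mem_density
  intro n₀
  refine ⟨r n₀, (by have := r_gt n₀; omega), blk (4 ^ r n₀) (r n₀) (le_pow_r n₀), ?_⟩
  set x := blk (4 ^ r n₀) (r n₀) (le_pow_r n₀) with hx
  have h1 := good_count n₀
  rw [card_C]
  have h2 : ((W (r n₀)).filter fun g => Good n₀ g).card ≤ (A ∩ (C (r n₀) x : Set FG)).ncard := by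
    rw [← card_image_of_injective _ (mul_left_injective x), ← Set.ncard_coe_finset]
    apply Set.ncard_le_ncard _ ((C (r n₀) x).finite_toSet.inter_of_right _)
    · intro y hy
      rw [mem_coe, mem_image] at hy
      obtain ⟨g, hg, rfl⟩ := hy
      rw [mem_filter] at hg
      rw [Set.mem_inter_iff, mem_coe, mem_C, mul_inv_cancel_right]
      refine ⟨⟨n₀, ?_⟩, mem_W.1 hg.1⟩
      have hgG : g⁻¹ ∈ Gn (r n₀) := inv_mem_Gn (mem_W.1 hg.1)
      have hval : ∀ i, i < r n₀ → ((g * x)⁻¹).1 i = (g⁻¹).1 i + 4 ^ r n₀ := by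
        intro i hi
        rw [mul_inv_rev]
        show (x⁻¹).1 ((g⁻¹).1 i) = _
        rw [hx, blk_inv_apply]
        unfold blkFun
        rw [if_pos (Gn_lt hgG hi)]
      refine ⟨fun i hi => ?_, fun j hj1 hj2 => ?_⟩
      · rw [hval i hi]
        have := Gn_lt hgG hi
        omega
      · obtain ⟨i, hi, hlt⟩ := hg.2 j hj1 hj2
        have h3 := r_mono hj2
        have h4 := r_gt j
        refine ⟨i, hi, ?_⟩
        rw [hval i (by omega), hval j (by omega)]
        omega
  have h3 : (((W (r n₀)).filter fun g => Good n₀ g).card : ℝ) ≤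
      ((A ∩ (C (r n₀) x : Set FG)).ncard : ℝ) := by exact_mod_cast h2
  linarith

theorem density_B : density B = 1 := by
  apply le_antisymm
  · unfold density
    apply csSup_le
    · refine ⟨0, fun H ε hε => ?_⟩
      obtain ⟨n, hn⟩ := exists_level H
      refine ⟨C n 1, C_invariant 1 H hn hε, ?_⟩
      rw [zero_mul]
      exact Nat.cast_nonneg _
    · intro α hα
      obtain ⟨K, hK, h⟩ := hα ∅ 1 one_pos
      have h1 : (0 : ℝ) < K.card := by exact_mod_cast card_pos.2 hK.1
      have h2 := ncard_inter_le B K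
      have h3 : α * K.card ≤ 1 * K.card := by linarith
      exact le_of_mul_le_mul_right h3 h1
  · apply le_csSup (density_bdd B)
    apply mem_density
    intro n
    refine ⟨n, le_rfl, blk (2 * 4 ^ n) (2 * 4 ^ n) le_rfl, ?_⟩
    have h1 : (B ∩ (C n (blk (2 * 4 ^ n) (2 * 4 ^ n) le_rfl) : Set FG)) =
        C n (blk (2 * 4 ^ n) (2 * 4 ^ n) le_rfl) := by
      rw [Set.inter_eq_right]
      intro y hy
      rw [mem_coe, mem_C] at hy
      exact ⟨n, _, hy, (inv_mul_cancel_right _ _).symm⟩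
    rw [h1, one_mul, Set.ncard_coe_finset]

/-! ### No thickness -/

/-- extend a permutation of `Fin n` -/
def ofFin {n : ℕ} (σ : Equiv.Perm (Fin n)) : FG :=
  ⟨{ toFun := fun i => if h : i < n then (σ ⟨i, h⟩).1 else i
     invFun := fun i => if h : i < n then (σ.symm ⟨i, h⟩).1 else i
     left_inv := by
      intro i
      by_cases h : i < n
      · simp [h]
      · simp [h]
     right_inv := by
      intro i
      by_cases h : i < n
      · simp [h]
      · simp [h] }, n, fun i hi => by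
    show (if h : i < n then (σ ⟨i, h⟩).1 else i) = i
    rw [dif_neg (by omega)]⟩

theorem ofFin_lt {n : ℕ} (σ : Equiv.Perm (Fin n)) (i : Fin n) : (ofFin σ).1 i.1 = (σ i).1 := by
  show (if h : i.1 < n then (σ ⟨i.1, h⟩).1 else i.1) = _
  rw [dif_pos i.2]

theorem ofFin_mem {n : ℕ} (σ : Equiv.Perm (Fin n)) : ofFin σ ∈ Gn n := by
  intro i hi
  show (if h : i < n then (σ ⟨i, h⟩).1 else i) = i
  rw [dif_neg (by omega)]

/-- In every coset `G_n x`, `n = r j`, some element has its maximum entry at `j` and well separated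
entries at the places below `k ≤ j`. -/
theorem exists_arrangement (x : FG) {j k : ℕ} (hj : 1 ≤ j) (hk : k ≤ j) :
    ∃ y : FG, y * x⁻¹ ∈ Gn (r j) ∧ (∀ i, i < r j → (y⁻¹).1 i ≤ (y⁻¹).1 j) ∧
      ∀ i i', i < i' → i' < k → (y⁻¹).1 i + r (j - 1) ≤ (y⁻¹).1 i' := by
  classical
  set n := r j with hn
  set ρ := r (j - 1) with hρ
  have hnρ : n = (j + 2) * ρ := by
    have h1 : j = (j - 1) + 1 := by omega
    have h2 := r_succ (j - 1)
    rw [← h1] at h2
    rw [hn, h2]
    congr 1
    omega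
  have hρ2 : 2 ≤ ρ := two_le_r _
  have hjn : j + 1 < n := r_gt j
  let E : Finset ℕ := (range n).image fun i => (x⁻¹).1 i
  have hE : E.card = n := by
    rw [card_image_of_injective _ (x⁻¹).1.injective, card_range]
  let emb := E.orderEmbOfFin hE
  have hemb : ∀ a b : Fin n, a.1 ≤ b.1 → emb a + (b.1 - a.1) ≤ emb b := by
    rintro ⟨a, ha⟩ ⟨b, hb⟩ hab
    simp only at hab ⊢
    induction b, hab using Nat.le_induction with
    | base => simp
    | succ b hab ih =>
      have h1 := ih (by omega)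
      have h2 : emb ⟨b, by omega⟩ < emb ⟨b + 1, hb⟩ := emb.strictMono (by
        show b < b + 1; omega)
      omega
  have hiρ : ∀ i, i < k → i * ρ < n - 1 := by
    intro i hi
    have h1 : i * ρ ≤ (j - 1) * ρ := Nat.mul_le_mul_right _ (by omega)
    have h2 : (j + 2) * ρ = (j - 1) * ρ + 3 * ρ := by
      have : j + 2 = (j - 1) + 3 := by omega
      rw [this, add_mul]
    omega
  let f : Fin n → ℕ := fun i => if i.1 = j then emb ⟨n - 1, by omega⟩ else
    if h : i.1 * ρ < n then emb ⟨i.1 * ρ, h⟩ else 0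
  let s : Finset (Fin n) := univ.filter fun i => i.1 < k ∨ i.1 = j
  have hfs : ∀ (i : Fin n) (hi : i.1 < k), f i = emb ⟨i.1 * ρ, by
      have := hiρ i.1 hi; omega⟩ := by
    intro i hi
    have h1 := hiρ i.1 hi
    simp only [f]
    rw [if_neg (by omega), dif_pos (by omega)]
  have hfj : f ⟨j, by omega⟩ = emb ⟨n - 1, by omega⟩ := by
    simp only [f]
    rw [if_pos trivial]
  obtain ⟨g, hg⟩ := Finset.exists_equiv_extend_of_card_eq (α := Fin n) (β := ℕ) (t := E)
    (by rw [Fintype.card_fin, hE]) (s := s) (f := f) (by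
      intro v hv
      rw [mem_image] at hv
      obtain ⟨i, hi, rfl⟩ := hv
      rw [mem_filter] at hi
      rcases hi.2 with h | h
      · rw [hfs i h]
        exact E.orderEmbOfFin_mem hE _
      · have : i = ⟨j, by omega⟩ := Fin.ext h
        rw [this, hfj]
        exact E.orderEmbOfFin_mem hE _) (by
      intro i hi i' hi' h
      rw [mem_coe, mem_filter] at hi hi'
      rcases hi.2 with h1 | h1 <;> rcases hi'.2 with h2 | h2
      · rw [hfs i h1, hfs i' h2] at h
        have h3 := congrArg Fin.val (emb.injective h)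
        simp only at h3
        exact Fin.ext (Nat.eq_of_mul_eq_mul_right (by omega) h3)
      · have e : i' = ⟨j, by omega⟩ := Fin.ext h2
        rw [hfs i h1, e, hfj] at h
        have h3 := congrArg Fin.val (emb.injective h)
        simp only at h3
        have := hiρ i.1 h1
        omega
      · have e : i = ⟨j, by omega⟩ := Fin.ext h1
        rw [hfs i' h2, e, hfj] at h
        have h3 := congrArg Fin.val (emb.injective h)
        simp only at h3
        have := hiρ i'.1 h2
        omega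
      · exact Fin.ext (h1.trans h2.symm))
  -- the permutation of positions
  have hlt : ∀ i : Fin n, x.1 (g i).1 < n := by
    intro i
    have h1 := (g i).2
    rw [mem_image] at h1
    obtain ⟨u, hu, hu'⟩ := h1
    rw [← hu']
    have : x.1 ((x⁻¹).1 u) = u := Equiv.apply_symm_apply x.1 u
    rw [this]
    exact mem_range.1 hu
  let σ : Equiv.Perm (Fin n) := Equiv.ofBijective (fun i => ⟨x.1 (g i).1, hlt i⟩) (by
    apply Finite.injective_iff_bijective.1
    intro i i' h
    have h1 := congrArg Fin.val h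
    simp only at h1
    exact g.injective (Subtype.ext (x.1.injective h1)))
  refine ⟨(ofFin σ)⁻¹ * x, ?_, ?_⟩
  · rw [mul_inv_cancel_right]
    exact inv_mem_Gn (ofFin_mem σ)
  · have hval : ∀ i : Fin n, (((ofFin σ)⁻¹ * x)⁻¹).1 i.1 = (g i).1 := by
      intro i
      rw [mul_inv_rev, inv_inv]
      show (x⁻¹).1 ((ofFin σ).1 i.1) = _
      rw [ofFin_lt]
      show (x⁻¹).1 (x.1 (g i).1) = _
      exact Equiv.symm_apply_apply x.1 _
    constructor
    · intro i hi
      rw [hval ⟨i, hi⟩, hval ⟨j, by omega⟩, hg ⟨j, by omega⟩ (mem_filter.2 ⟨mem_univ _, Or.inr rfl⟩),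
        hfj]
      -- every element of `E` is at most the last one
      have h1 : (g ⟨i, hi⟩).1 ∈ Set.range emb := by
        rw [Finset.range_orderEmbOfFin]
        exact (g ⟨i, hi⟩).2
      obtain ⟨u, hu⟩ := h1
      rw [← hu]
      apply emb.monotone
      show u.1 ≤ n - 1
      have := u.2
      omega
    · intro i i' hii' hi'
      rw [hval ⟨i, by omega⟩, hval ⟨i', by omega⟩,
        hg ⟨i, by omega⟩ (mem_filter.2 ⟨mem_univ _, Or.inl (by show i < k; omega)⟩),
        hg ⟨i', by omega⟩ (mem_filter.2 ⟨mem_univ _, Or.inl hi'⟩),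
        hfs ⟨i, by omega⟩ (by show i < k; omega), hfs ⟨i', by omega⟩ hi']
      have h1 := hiρ i' hi'
      have h2 : i * ρ + ρ ≤ i' * ρ := by
        have : (i + 1) * ρ ≤ i' * ρ := Nat.mul_le_mul_right _ hii'
        rwa [add_mul, one_mul] at this
      have h3 := hemb ⟨i * ρ, by omega⟩ ⟨i' * ρ, by omega⟩ (by show i * ρ ≤ i' * ρ; omega)
      change emb ⟨i * ρ, by omega⟩ + (i' * ρ - i * ρ) ≤ emb ⟨i' * ρ, by omega⟩ at h3
      change emb ⟨i * ρ, by omega⟩ + ρ ≤ emb ⟨i' * ρ, by omega⟩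
      omega

theorem not_thick (F : Finset FG) : ¬ Thick {y : FG | ∃ f ∈ F, ∃ a ∈ A, ∃ b ∈ B, y = f * a * b⁻¹} := by
  intro hthick
  obtain ⟨k, hk⟩ := exists_level F
  set j := k + 2 with hj
  obtain ⟨x, hx⟩ := hthick (W (r j))
  obtain ⟨y, hy1, hy2, hy3⟩ := exists_arrangement x (j := j) (k := k + 2) (by omega) (by omega)
  have hyx := hx (y * x⁻¹) (mem_W.2 hy1)
  rw [inv_mul_cancel_right] at hyx
  obtain ⟨f, hf, a, ha, b, hb, hyf⟩ := hyx
  have hD : f⁻¹ * y ∈ D := by
    have : f⁻¹ * y = a * b⁻¹ := by rw [hyf]; group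
    rw [this]
    exact AB_subset ha hb
  have hfk : f ∈ Gn k := hk f hf
  obtain ⟨t, ht1, ht2⟩ := hD
  have hval : ∀ i, ((f⁻¹ * y)⁻¹).1 i = (y⁻¹).1 (f.1 i) := by
    intro i
    rw [mul_inv_rev, inv_inv]
    rfl
  have hrj := r_gt j
  by_cases htj : j ≤ t
  · obtain ⟨i, hi, hlt⟩ := ht2 j (by omega) htj
    rw [hval, hval, hfk j (by omega)] at hlt
    have h1 : f.1 i < r j := Gn_lt (Gn_mono (by omega) hfk) hi
    have := hy2 _ h1
    omega
  · have h01 : f.1 0 ≠ f.1 1 := fun h => absurd (f.1.injective h) (by norm_num)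
    have h0 : f.1 0 < k + 2 := Gn_lt (Gn_mono (by omega) hfk) (by omega)
    have h1 : f.1 1 < k + 2 := Gn_lt (Gn_mono (by omega) hfk) (by omega)
    have hrt := two_le_r t
    have hle : r t ≤ r (j - 1) := r_mono (by omega)
    rcases Nat.lt_or_gt_of_ne h01 with h | h
    · have h2 := hy3 _ _ h h1
      have h3 := ht1 1 0 (by omega) (by omega)
      rw [hval, hval] at h3
      omega
    · have h2 := hy3 _ _ h h0
      have h3 := ht1 0 1 (by omega) (by omega)
      rw [hval, hval] at h3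
      omega

/-- **Theorem.** There are a countable amenable group `G` and sets `A, B ⊆ G` with Banach densities
`d(A) ≥ 1/2` and `d(B) = 1` such that for every finite set `F ⊆ G` the set `F A B⁻¹` is not
thick. -/
theorem result :
    ∃ (G : Type) (_ : Group G), Countable G ∧ IsAmenable G ∧ ∃ A B : Set G,
      1 / 2 ≤ density A ∧ density B = 1 ∧
      ∀ F : Finset G, ¬ Thick {y : G | ∃ f ∈ F, ∃ a ∈ A, ∃ b ∈ B, y = f * a * b⁻¹} := by
  refine ⟨FG, inferInstance, ?_, ?_, A, B, density_A, density_B, not_thick⟩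
  · have h1 : (Set.univ : Set FG) ⊆ ⋃ n, Gn n := by
      intro g _
      obtain ⟨n, hn⟩ := g.2
      exact Set.mem_iUnion.2 ⟨n, hn⟩
    exact Set.countable_univ_iff.1
      ((Set.countable_iUnion fun n => (finite_Gn n).countable).mono h1)
  · intro H ε hε
    obtain ⟨n, hn⟩ := exists_level H
    exact ⟨C n 1, C_invariant 1 H hn hε⟩

end Pool.Agent.Results.MP_b01501_co.NotSyndetic
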